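import Mathlib
import Pool.Agent.Q137.Leap.Main

set_option autoImplicit false

/-!
# The regular dodecahedron and the regular icosahedron can be enlarged by leapfrog jumps
-/

namespace Pool.Agent.Results.MP_4a8fbb_co.BothEnlarged

open Real

/-- A legal move on configurations of pieces in space (indexed by `ι`): some piece `i` leaps over
another piece `j`, from `p i` to the point reflection `2 p j - p i`; the others stay. -/
def Jump {ι : Type*} [DecidableEq ι] (p q : ι → EuclideanSpace ℝ (Fin 3)) : Prop :=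
  ∃ i j, i ≠ j ∧ q = Function.update p i ((2:ℝ) • p j - p i)

open Classical in
/-- A finite vertex set `V` can be enlarged: starting with one piece at each point of `V`, some
finite sequence of legal moves ends with the pieces at different points which form the set
`σ(V)`, for a similarity `σ` of space with ratio `r > 1`. -/
def CanBeEnlarged (V : Set (EuclideanSpace ℝ (Fin 3))) : Prop :=
  ∃ q : V → EuclideanSpace ℝ (Fin 3),
    Relation.ReflTransGen Jump (fun v : V => (v : EuclideanSpace ℝ (Fin 3))) q ∧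
    Function.Injective q ∧
    ∃ (σ : EuclideanSpace ℝ (Fin 3) → EuclideanSpace ℝ (Fin 3)) (r : ℝ), 1 < r ∧
      (∀ x y, dist (σ x) (σ y) = r * dist x y) ∧ Set.range q = σ '' V

/-- The 12 vertices `(0, ±1, ±φ)`, `(±1, ±φ, 0)`, `(±φ, 0, ±1)` of a regular icosahedron, where
`φ` is the golden ratio. -/
def icosahedron : Set (EuclideanSpace ℝ (Fin 3)) :=
  {v | ∃ a b : ℝ, (a = 1 ∨ a = -1) ∧ (b = goldenRatio ∨ b = -goldenRatio) ∧
    (v = !₂[0, a, b] ∨ v = !₂[a, b, 0] ∨ v = !₂[b, 0, a])}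

/-- The 20 vertices `(±1, ±1, ±1)`, `(0, ±1/φ, ±φ)`, `(±1/φ, ±φ, 0)`, `(±φ, 0, ±1/φ)` of a
regular dodecahedron. -/
def dodecahedron : Set (EuclideanSpace ℝ (Fin 3)) :=
  {v | (∃ a b c : ℝ, (a = 1 ∨ a = -1) ∧ (b = 1 ∨ b = -1) ∧ (c = 1 ∨ c = -1) ∧ v = !₂[a, b, c]) ∨
    ∃ a b : ℝ, (a = goldenRatio⁻¹ ∨ a = -goldenRatio⁻¹) ∧
      (b = goldenRatio ∨ b = -goldenRatio) ∧
      (v = !₂[0, a, b] ∨ v = !₂[a, b, 0] ∨ v = !₂[b, 0, a])}

/-- **Theorem.** Every regular icosahedron and every regular dodecahedron, that is, every image of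
the standard one under a similarity `τ` of space, can be enlarged. -/
theorem result :
    icosahedron.ncard = 12 ∧ dodecahedron.ncard = 20 ∧
    ∀ (τ : EuclideanSpace ℝ (Fin 3) → EuclideanSpace ℝ (Fin 3)) (s : ℝ), 0 < s →
      (∀ x y, dist (τ x) (τ y) = s * dist x y) →
      CanBeEnlarged (τ '' icosahedron) ∧ CanBeEnlarged (τ '' dodecahedron) := by
  refine ⟨Q137.Leap.ncard_ico, Q137.Leap.ncard_dod, fun τ s hs hτ => ⟨?_, ?_⟩⟩
  · exact Q137.Leap.enlarge_copy Q137.Leap.icoV Q137.Leap.ico_init_injective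
      Q137.Leap.one_lt_ratio (Q137.Leap.ico_reach _ Q137.Leap.ico_rel) hs hτ Q137.Leap.ico_range
  · exact Q137.Leap.enlarge_copy Q137.Leap.dodV Q137.Leap.dod_init_injective
      Q137.Leap.one_lt_ratio (Q137.Leap.dod_reach _ Q137.Leap.dod_rel) hs hτ Q137.Leap.dod_range

end Pool.Agent.Results.MP_4a8fbb_co.BothEnlarged
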